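import Pool.Agent.Helper32.OIP.Goals

/-!
# MP_fc0446_an, project OIP, packet E5
-/

open MeasureTheory
open scoped ENNReal

namespace Pool.Agent.Helper83.OIP

open Pool.Agent.Helper32.OIP Pool.Agent.Helper58.Orb

theorem hc_unit {A E : Type} [MeasurableSpace E] (μ : Measure (A → E)) [IsProbabilityMeasure μ]
    (X : (A → E) → Unit) (T : Set A) : hc μ X T = 0 := by
  unfold hc
  have : ∀ z, ∑ m, Real.negMulLog (cp μ X T z m) = 0 := by
    intro z
    apply Finset.sum_eq_zero
    intro m _
    have h1 : cp μ X T z m = 1 := by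
      unfold cp
      have : {w | X (glue T z w) = m} = Set.univ := by
        ext w; simp
      rw [this]; simp
    rw [h1]; simp
  rw [integral_congr_ae (Filter.Eventually.of_forall this)]
  simp

theorem e5 : GoalE5 := by
  intro hE4 hE2 hE1 hMA1 hMA2 hE3 A E M _ _ _ _ ν _ X W hX hW
  have : IsProbabilityMeasure (pm A ν) := by unfold pm; infer_instance
  obtain ⟨e3a, e3b, e3c, e3d⟩ := hE3 hMA1 hMA2 A E M ν X hX
  obtain ⟨e4a, e4b, e4c, e4d⟩ := hE4 A W (fun T => hc (pm A ν) X T) (fun T => e3c _ T hW)
  have key : ∀ (M' : Type) [Fintype M'] (φ : M → M') (j : A), ∀ᵐ U ∂(bern A),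
      hc (pm A ν) (fun z => φ (X z)) {i | U i < U j} -
        hc (pm A ν) (fun z => φ (X z)) {i | U i ≤ U j} ≤
      hc (pm A ν) X {i | U i < U j} - hc (pm A ν) X {i | U i ≤ U j} := by
    intro M' _ φ j
    filter_upwards [e4d j] with U hU
    rw [hU]
    exact hE2 hE1 hMA2 A E M M' ν X φ _ j hX (by simp)
  refine ⟨?_, ?_, ?_, ?_, ?_⟩
  · intro j
    unfold FX
    apply integral_nonneg_of_ae
    filter_upwards [key Unit (fun _ => ()) j] with U hU
    rw [hc_unit, hc_unit] at hU
    simpa using hU
  · have h1 : ∑ j ∈ W, FX (pm A ν) X j = hc (pm A ν) X ∅ - hc (pm A ν) X (W : Set A) := e4b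
    rw [h1, e3a, e3b W W hW (le_refl _), sub_zero]
  · exact e4c
  · intro g j
    unfold FX
    have h1 : ∀ U : Bern A, hc (pm A ν) (fun z => X (sh g z)) {i | U i < U j} -
        hc (pm A ν) (fun z => X (sh g z)) {i | U i ≤ U j} =
        (fun V : Bern A => hc (pm A ν) X {i | V i < V (g * j)} -
          hc (pm A ν) X {i | V i ≤ V (g * j)}) (shift g U) := by
      intro U
      rw [e3d, e3d]
      have h2 : (fun a => g * a) '' {i | U i < U j} =
          {i | (shift g U) i < (shift g U) (g * j)} := by
        ext i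
        simp only [Set.mem_image, Set.mem_setOf_eq, shift, inv_mul_cancel_left]
        constructor
        · rintro ⟨a, ha, rfl⟩
          simpa using ha
        · intro h
          exact ⟨g⁻¹ * i, h, by simp⟩
      have h3 : (fun a => g * a) '' {i | U i ≤ U j} =
          {i | (shift g U) i ≤ (shift g U) (g * j)} := by
        ext i
        simp only [Set.mem_image, Set.mem_setOf_eq, shift, inv_mul_cancel_left]
        constructor
        · rintro ⟨a, ha, rfl⟩
          simpa using ha
        · intro h
          exact ⟨g⁻¹ * i, h, by simp⟩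
      rw [h2, h3]
    rw [integral_congr_ae (Filter.Eventually.of_forall h1)]
    have hmp := measurePreserving_shift (G := A) g
    have h4 := integral_map (μ := bern A) hmp.aemeasurable
      (f := fun V : Bern A => hc (pm A ν) X {i | V i < V (g * j)} -
          hc (pm A ν) X {i | V i ≤ V (g * j)})
      (by rw [hmp.map_eq]; exact (e4a (g * j)).aestronglyMeasurable)
    rw [hmp.map_eq] at h4
    exact h4.symm
  · intro M' _ φ j
    have hX' : ∀ m, MeasurableSet {z | φ (X z) = m} := by
      intro m
      have : {z | φ (X z) = m} = ⋃ m₀ ∈ {m₀ | φ m₀ = m}, {z | X z = m₀} := by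
        ext z; simp
      rw [this]
      exact MeasurableSet.biUnion (Set.toFinite _).countable (fun m₀ _ => hX m₀)
    have hW' : DependsOn (fun z => φ (X z)) (W : Set A) := by
      intro x y h
      show φ (X x) = φ (X y)
      rw [hW h]
    obtain ⟨e3a', e3b', e3c', e3d'⟩ := hE3 hMA1 hMA2 A E M' ν (fun z => φ (X z)) hX'
    obtain ⟨e4a', e4b', e4c', e4d'⟩ := hE4 A W (fun T => hc (pm A ν) (fun z => φ (X z)) T)
      (fun T => e3c' _ T hW')
    exact integral_mono_ae (e4a' j) (e4a j) (key M' φ j)

end Pool.Agent.Helper83.OIP
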